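import Pool.Agent.UBV.Upper

set_option autoImplicit false

/-!
# The maximum unit bar visibility number of `n`-vertex graphs

`f(n) = ⌈(n - 1) / 3⌉` for all `n ≥ 2` with `n ≠ 4`, and `f(4) = 2`. The upper bound removes three
vertices at a time: every other vertex gets one new bar, and the three vertices get
`⌈(n - 1) / 3⌉` bars. The drawings are in `Pool.Agent.UBV`; here we define the notions, pass from
stacks of bars to the plane, and prove the lower bound (stars).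
-/

namespace Pool.Agent.Results.MP_aa954a_co.ExactValue

open Pool.Agent.UBV

/-- The closed horizontal unit segment with left end point `b`. -/
def seg (b : ℝ × ℝ) : Set (ℝ × ℝ) := {p | b.1 ≤ p.1 ∧ p.1 ≤ b.1 + 1 ∧ p.2 = b.2}

/-- Bar `b` is below bar `b'` and they are joined by a vertical channel of positive width that
meets no other bar of the collection `B`: a non-degenerate rectangle `[l, r] × [lo, hi]` has its
bottom side in `b`, its top side in `b'`, and meets no other bar. -/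
def Below (B : Set (ℝ × ℝ)) (b b' : ℝ × ℝ) : Prop :=
  ∃ l r lo hi : ℝ, l < r ∧ lo < hi ∧
    (∀ s ∈ Set.Icc l r, (s, lo) ∈ seg b) ∧ (∀ s ∈ Set.Icc l r, (s, hi) ∈ seg b') ∧
    ∀ c ∈ B, c ≠ b → c ≠ b' → ∀ s ∈ Set.Icc l r, ∀ h ∈ Set.Icc lo hi, (s, h) ∉ seg c

/-- Two bars of the collection `B` see each other. -/
def Sees (B : Set (ℝ × ℝ)) (b b' : ℝ × ℝ) : Prop := Below B b b' ∨ Below B b' b

/-- `R` is a `t`-unit-bar visibility representation of `G`; a bar is given by its left end point,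
and `R v` is the set of bars assigned to the vertex `v`. -/
def IsRep {V : Type*} (G : SimpleGraph V) (t : ℕ) (R : V → Finset (ℝ × ℝ)) : Prop :=
  (∀ v, (R v).card ≤ t) ∧
  (∀ v w : V, ∀ b ∈ R v, ∀ c ∈ R w, (v ≠ w ∨ b ≠ c) → Disjoint (seg b) (seg c)) ∧
  ∀ x y : V, x ≠ y → (G.Adj x y ↔ ∃ b ∈ R x, ∃ c ∈ R y, Sees {d | ∃ v, d ∈ R v} b c)

/-- The unit bar visibility number: the least positive `t` for which a `t`-unit-bar visibility
representation exists. -/
noncomputable def ub {V : Type*} (G : SimpleGraph V) : ℕ := sInf {t | 1 ≤ t ∧ ∃ R, IsRep G t R}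

/-! ### From stacks of bars to the plane -/

section Geometry

variable {V : Type*}

/-- the bar `(v, p)` has height `h` in the list -/
def At : List (V × ℤ) → V → ℤ → ℕ → Prop
  | [], _, _, _ => False
  | (w, q) :: l, v, p, h => (w = v ∧ q = p ∧ h = l.length) ∨ At l v p h

theorem At.lt {l : List (V × ℤ)} {v : V} {p : ℤ} {h : ℕ} (ha : At l v p h) : h < l.length := by
  induction l with
  | nil => exact absurd ha (by simp [At])
  | cons b l ih =>
    obtain ⟨w, q⟩ := b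
    rcases ha with ⟨_, _, rfl⟩ | ha
    · simp
    · have := ih ha
      simp only [List.length_cons]; omega

theorem At.unique {l : List (V × ℤ)} {v w : V} {p q : ℤ} {h : ℕ} (ha : At l v p h)
    (hb : At l w q h) : v = w ∧ p = q := by
  induction l with
  | nil => exact absurd ha (by simp [At])
  | cons b l ih =>
    obtain ⟨u, r⟩ := b
    rcases ha with ⟨h1, h2, h3⟩ | ha
    · rcases hb with ⟨h4, h5, h6⟩ | hb
      · exact ⟨h1.symm.trans h4, h2.symm.trans h5⟩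
      · have := hb.lt; omega
    · rcases hb with ⟨h4, h5, h6⟩ | hb
      · have := ha.lt; omega
      · exact ih ha hb

theorem sky_iff (l : List (V × ℤ)) (k : ℤ) (y : V) : sky l k = some y ↔
    ∃ q h, At l y q h ∧ q ≤ k ∧ k < q + 4 ∧
      ∀ v r m, At l v r m → h < m → ¬ (r ≤ k ∧ k < r + 4) := by
  induction l with
  | nil => simp [sky, At]
  | cons b l ih =>
    obtain ⟨w, p⟩ := b
    simp only [sky]
    by_cases hk : p ≤ k ∧ k < p + 4
    · rw [if_pos hk]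
      constructor
      · intro h
        have h := Option.some.inj h
        refine ⟨p, l.length, Or.inl ⟨h, rfl, rfl⟩, hk.1, hk.2, ?_⟩
        rintro v r m (⟨_, _, rfl⟩ | hm) hlt
        · omega
        · have := hm.lt; omega
      · rintro ⟨q, h, (⟨h1, _, _⟩ | ha), _, _, hno⟩
        · rw [h1]
        · exact absurd hk (hno w p l.length (Or.inl ⟨rfl, rfl, rfl⟩) ha.lt)
    · rw [if_neg hk, ih]
      constructor
      · rintro ⟨q, h, ha, h1, h2, hno⟩
        refine ⟨q, h, Or.inr ha, h1, h2, ?_⟩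
        rintro v r m (⟨_, rfl, _⟩ | hm) hlt
        · exact hk
        · exact hno v r m hm hlt
      · rintro ⟨q, h, (⟨_, rfl, _⟩ | ha), h1, h2, hno⟩
        · exact absurd ⟨h1, h2⟩ hk
        · exact ⟨q, h, ha, h1, h2, fun v r m hm => hno v r m (Or.inr hm)⟩

theorem on_iff (l : List (V × ℤ)) (x y : V) : On l x y ↔
    ∃ p h q h' k, At l x p h ∧ At l y q h' ∧ h' < h ∧ (p ≤ k ∧ k < p + 4) ∧ (q ≤ k ∧ k < q + 4) ∧
      ∀ v r m, At l v r m → h' < m → m < h → ¬ (r ≤ k ∧ k < r + 4) := by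
  induction l with
  | nil => simp [On, At]
  | cons b l ih =>
    obtain ⟨w, p0⟩ := b
    simp only [On]
    rw [ih]
    constructor
    · rintro (⟨p, h, q, h', k, h1, h2, h3, h4, h5, h6⟩ | ⟨rfl, k, hk1, hk2, hk⟩)
      · refine ⟨p, h, q, h', k, Or.inr h1, Or.inr h2, h3, h4, h5, ?_⟩
        rintro v r m (⟨_, _, rfl⟩ | hm) hlt hlt'
        · have := h1.lt; omega
        · exact h6 v r m hm hlt hlt'
      · obtain ⟨q, h', ha, h1, h2, hno⟩ := (sky_iff l k y).1 hk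
        refine ⟨p0, l.length, q, h', k, Or.inl ⟨rfl, rfl, rfl⟩, Or.inr ha, ha.lt, ⟨hk1, hk2⟩,
          ⟨h1, h2⟩, ?_⟩
        rintro v r m (⟨_, _, rfl⟩ | hm) hlt hlt'
        · omega
        · exact hno v r m hm hlt
    · rintro ⟨p, h, q, h', k, h1, h2, h3, h4, h5, h6⟩
      rcases h1 with ⟨rfl, rfl, rfl⟩ | h1
      · right
        refine ⟨rfl, k, h4.1, h4.2, (sky_iff l k y).2 ?_⟩
        rcases h2 with ⟨_, _, rfl⟩ | h2
        · omega
        · exact ⟨q, h', h2, h5.1, h5.2, fun v r m hm hlt => h6 v r m (Or.inr hm) hlt hm.lt⟩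
      · left
        rcases h2 with ⟨_, _, rfl⟩ | h2
        · have := h1.lt; omega
        · exact ⟨p, h, q, h', k, h1, h2, h3, h4, h5, fun v r m hm => h6 v r m (Or.inr hm)⟩

open Classical in
/-- the bars of a vertex -/
noncomputable def RR : List (V × ℤ) → V → Finset (ℝ × ℝ)
  | [], _ => ∅
  | (w, p) :: l, v => if w = v then insert ((p : ℝ) / 4, (l.length : ℝ)) (RR l v) else RR l v

theorem mem_RR (l : List (V × ℤ)) (v : V) (b : ℝ × ℝ) :
    b ∈ RR l v ↔ ∃ p h, At l v p h ∧ b = ((p : ℝ) / 4, (h : ℝ)) := by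
  classical
  induction l with
  | nil => simp [RR, At]
  | cons c l ih =>
    obtain ⟨w, p⟩ := c
    simp only [RR]
    by_cases hw : w = v
    · rw [if_pos hw, Finset.mem_insert, ih]
      constructor
      · rintro (rfl | ⟨q, h, ha, rfl⟩)
        · exact ⟨p, l.length, Or.inl ⟨hw, rfl, rfl⟩, rfl⟩
        · exact ⟨q, h, Or.inr ha, rfl⟩
      · rintro ⟨q, h, (⟨_, rfl, rfl⟩ | ha), rfl⟩
        · left; rfl
        · right; exact ⟨q, h, ha, rfl⟩
    · rw [if_neg hw, ih]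
      constructor
      · rintro ⟨q, h, ha, rfl⟩
        exact ⟨q, h, Or.inr ha, rfl⟩
      · rintro ⟨q, h, (⟨h1, _, _⟩ | ha), rfl⟩
        · exact absurd h1 hw
        · exact ⟨q, h, ha, rfl⟩

theorem card_RR (l : List (V × ℤ)) (v : V) : (RR l v).card ≤ cnt l v := by
  classical
  induction l with
  | nil => simp [RR, cnt]
  | cons c l ih =>
    obtain ⟨w, p⟩ := c
    simp only [RR, cnt]
    by_cases hw : w = v
    · simp only [hw, if_true]
      exact (Finset.card_insert_le _ _).trans (Nat.add_le_add_right ih 1)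
    · simp only [hw, if_false]
      exact ih

theorem below_iff_col {l : List (V × ℤ)} {x y : V} {p q : ℤ} {h h' : ℕ} (hx : At l x p h)
    (hy : At l y q h') :
    Below {d | ∃ v, d ∈ RR l v} ((q : ℝ) / 4, (h' : ℝ)) ((p : ℝ) / 4, (h : ℝ)) ↔
      (h' < h ∧ ∃ k, (p ≤ k ∧ k < p + 4) ∧ (q ≤ k ∧ k < q + 4) ∧
        ∀ v r m, At l v r m → h' < m → m < h → ¬ (r ≤ k ∧ k < r + 4)) := by
  constructor
  · rintro ⟨l0, r0, lo, hi, hlr, hlohi, h1, h2, h3⟩
    have a1 := h1 l0 ⟨le_refl _, hlr.le⟩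
    have a2 := h1 r0 ⟨hlr.le, le_refl _⟩
    have a3 := h2 l0 ⟨le_refl _, hlr.le⟩
    have a4 := h2 r0 ⟨hlr.le, le_refl _⟩
    simp only [seg, Set.mem_ofPred_eq] at a1 a2 a3 a4
    obtain ⟨a11, a12, a13⟩ := a1
    obtain ⟨a21, a22, a23⟩ := a2
    obtain ⟨a31, a32, a33⟩ := a3
    obtain ⟨a41, a42, a43⟩ := a4
    subst a13
    subst a33
    have hlt : h' < h := by exact_mod_cast hlohi
    have hk1 : (⌊4 * l0⌋ : ℝ) ≤ 4 * l0 := Int.floor_le _
    have hk2 : 4 * l0 < (⌊4 * l0⌋ : ℝ) + 1 := Int.lt_floor_add_one _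
    refine ⟨hlt, ⌊4 * l0⌋, ⟨?_, ?_⟩, ⟨?_, ?_⟩, ?_⟩
    · rw [Int.le_floor]; linarith
    · have : (⌊4 * l0⌋ : ℝ) < ((p + 4 : ℤ) : ℝ) := by push_cast; linarith
      exact_mod_cast this
    · rw [Int.le_floor]; linarith
    · have : (⌊4 * l0⌋ : ℝ) < ((q + 4 : ℤ) : ℝ) := by push_cast; linarith
      exact_mod_cast this
    · rintro v r m hm hm1 hm2 ⟨hr1, hr2⟩
      have hm1' : (h' : ℝ) < (m : ℝ) := by exact_mod_cast hm1
      have hm2' : (m : ℝ) < (h : ℝ) := by exact_mod_cast hm2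
      refine h3 ((r : ℝ) / 4, (m : ℝ)) ⟨v, (mem_RR l v _).2 ⟨r, m, hm, rfl⟩⟩ ?_ ?_ l0
        ⟨le_refl _, hlr.le⟩ (m : ℝ) ⟨hm1'.le, hm2'.le⟩ ?_
      · intro e
        have := congrArg Prod.snd e
        simp only at this
        linarith
      · intro e
        have := congrArg Prod.snd e
        simp only at this
        linarith
      · have hr1' : (r : ℝ) ≤ (⌊4 * l0⌋ : ℝ) := by exact_mod_cast hr1
        have hr2' : (⌊4 * l0⌋ : ℝ) + 1 ≤ (r : ℝ) + 4 := by exact_mod_cast hr2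
        refine ⟨?_, ?_, rfl⟩
        · simp only; linarith
        · simp only; linarith
  · rintro ⟨hlt, k, ⟨hp1, hp2⟩, ⟨hq1, hq2⟩, hno⟩
    have hp1' : (p : ℝ) ≤ (k : ℝ) := by exact_mod_cast hp1
    have hq1' : (q : ℝ) ≤ (k : ℝ) := by exact_mod_cast hq1
    have hp2' : (k : ℝ) + 1 ≤ (p : ℝ) + 4 := by exact_mod_cast hp2
    have hq2' : (k : ℝ) + 1 ≤ (q : ℝ) + 4 := by exact_mod_cast hq2
    refine ⟨(k : ℝ) / 4 + 1 / 16, (k : ℝ) / 4 + 3 / 16, h', h, by linarith,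
      by exact_mod_cast hlt, ?_, ?_, ?_⟩
    · rintro s ⟨hs1, hs2⟩
      refine ⟨?_, ?_, rfl⟩
      · simp only; linarith
      · simp only; linarith
    · rintro s ⟨hs1, hs2⟩
      refine ⟨?_, ?_, rfl⟩
      · simp only; linarith
      · simp only; linarith
    · rintro c ⟨v, hv⟩ hc1 hc2 s ⟨hs1, hs2⟩ η ⟨hη1, hη2⟩ ⟨hm1, hm2, hm3⟩
      obtain ⟨r, m, hm, rfl⟩ := (mem_RR l v c).1 hv
      simp only at hm1 hm2 hm3
      subst hm3
      have e1 : h' ≤ m := by exact_mod_cast hη1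
      have e2 : m ≤ h := by exact_mod_cast hη2
      have e3 : m ≠ h' := by
        rintro rfl
        obtain ⟨_, rfl⟩ := hm.unique hy
        exact hc1 rfl
      have e4 : m ≠ h := by
        rintro rfl
        obtain ⟨_, rfl⟩ := hm.unique hx
        exact hc2 rfl
      refine hno v r m hm (by omega) (by omega) ⟨?_, ?_⟩
      · have : (r : ℝ) < ((k + 1 : ℤ) : ℝ) := by push_cast; linarith
        have : r < k + 1 := by exact_mod_cast this
        omega
      · have : (k : ℝ) < ((r + 4 : ℤ) : ℝ) := by push_cast; linarith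
        exact_mod_cast this

theorem on_iff_below (l : List (V × ℤ)) (x y : V) : On l x y ↔
    ∃ b ∈ RR l x, ∃ c ∈ RR l y, Below {d | ∃ v, d ∈ RR l v} c b := by
  rw [on_iff]
  constructor
  · rintro ⟨p, h, q, h', k, h1, h2, h3, h4, h5, h6⟩
    exact ⟨_, (mem_RR l x _).2 ⟨p, h, h1, rfl⟩, _, (mem_RR l y _).2 ⟨q, h', h2, rfl⟩,
      (below_iff_col h1 h2).2 ⟨h3, k, h4, h5, h6⟩⟩
  · rintro ⟨b, hb, c, hc, hbel⟩
    obtain ⟨p, h, h1, rfl⟩ := (mem_RR l x b).1 hb
    obtain ⟨q, h', h2, rfl⟩ := (mem_RR l y c).1 hc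
    obtain ⟨h3, k, h4, h5, h6⟩ := (below_iff_col h1 h2).1 hbel
    exact ⟨p, h, q, h', k, h1, h2, h3, h4, h5, h6⟩

theorem isRep_of_rep {G : SimpleGraph V} {t : ℕ} {β : V → ℕ} {E : V → V → Prop}
    (h : Rep E β) (hE : ∀ a b, a ≠ b → (E a b ↔ G.Adj a b)) (hβ : ∀ v, β v ≤ t) :
    ∃ R, IsRep G t R := by
  obtain ⟨l, hc, hadj⟩ := h
  refine ⟨RR l, fun v => (card_RR l v).trans ((hc v).trans (hβ v)), ?_, ?_⟩
  · intro v w b hb c hc' hne
    obtain ⟨p, h, h1, rfl⟩ := (mem_RR l v b).1 hb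
    obtain ⟨q, h', h2, rfl⟩ := (mem_RR l w c).1 hc'
    have hhh : h ≠ h' := by
      rintro rfl
      obtain ⟨rfl, rfl⟩ := h1.unique h2
      simp at hne
    rw [Set.disjoint_left]
    rintro ⟨s, η⟩ ⟨_, _, m1⟩ ⟨_, _, m2⟩
    simp only at m1 m2
    apply hhh
    have : (h : ℝ) = (h' : ℝ) := m1.symm.trans m2
    exact_mod_cast this
  · intro x y hxy
    rw [← hE x y hxy, hadj x y hxy, on_iff_below, on_iff_below]
    constructor
    · rintro (⟨b, hb, c, hc, h⟩ | ⟨b, hb, c, hc, h⟩)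
      · exact ⟨b, hb, c, hc, Or.inr h⟩
      · exact ⟨c, hc, b, hb, Or.inl h⟩
    · rintro ⟨b, hb, c, hc, (h | h)⟩
      · exact Or.inr ⟨c, hc, b, hb, h⟩
      · exact Or.inl ⟨b, hb, c, hc, h⟩

end Geometry

/-! ### The lower bound: stars -/

section Star

/-- an interval `(p, q)` on which every bar is either present everywhere or absent -/
def Gen (B : Set (ℝ × ℝ)) (p q : ℝ) : Prop :=
  p < q ∧ ∀ d ∈ B, (d.1 ≤ p ∧ q ≤ d.1 + 1) ∨ q ≤ d.1 ∨ d.1 + 1 ≤ p

/-- the bar is present on `(p, q)` -/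
def Cov (d : ℝ × ℝ) (p q : ℝ) : Prop := d.1 ≤ p ∧ q ≤ d.1 + 1

theorem gen_right (F : Finset (ℝ × ℝ)) (p : ℝ) : ∃ q, p < q ∧ ∀ d ∈ F,
    ((d.1 ≤ p ∧ p < d.1 + 1) ∧ q ≤ d.1 + 1) ∨
      (¬ (d.1 ≤ p ∧ p < d.1 + 1) ∧ (q ≤ d.1 ∨ d.1 + 1 ≤ p)) := by
  classical
  induction F using Finset.induction_on with
  | empty => exact ⟨p + 1, by linarith, fun d hd => absurd hd (by simp)⟩
  | insert e F he ih =>
    obtain ⟨q, hq, hF⟩ := ih
    have shrink : ∀ q', q' ≤ q → ∀ d ∈ F, ((d.1 ≤ p ∧ p < d.1 + 1) ∧ q' ≤ d.1 + 1) ∨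
        (¬ (d.1 ≤ p ∧ p < d.1 + 1) ∧ (q' ≤ d.1 ∨ d.1 + 1 ≤ p)) := by
      intro q' hq' d hd
      rcases hF d hd with ⟨h1, h2⟩ | ⟨h1, h2 | h2⟩
      · exact Or.inl ⟨h1, hq'.trans h2⟩
      · exact Or.inr ⟨h1, Or.inl (hq'.trans h2)⟩
      · exact Or.inr ⟨h1, Or.inr h2⟩
    by_cases h1 : e.1 ≤ p
    · by_cases h2 : p < e.1 + 1
      · refine ⟨min q (e.1 + 1), lt_min hq h2, ?_⟩
        intro d hd
        rcases Finset.mem_insert.1 hd with rfl | hd
        · exact Or.inl ⟨⟨h1, h2⟩, min_le_right _ _⟩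
        · exact shrink _ (min_le_left _ _) d hd
      · refine ⟨q, hq, ?_⟩
        intro d hd
        rcases Finset.mem_insert.1 hd with rfl | hd
        · exact Or.inr ⟨fun h => h2 h.2, Or.inr (not_lt.1 h2)⟩
        · exact hF d hd
    · refine ⟨min q e.1, lt_min hq (not_le.1 h1), ?_⟩
      intro d hd
      rcases Finset.mem_insert.1 hd with rfl | hd
      · exact Or.inr ⟨fun h => h1 h.1, Or.inl (min_le_right _ _)⟩
      · exact shrink _ (min_le_left _ _) d hd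

theorem gen_left (F : Finset (ℝ × ℝ)) (q : ℝ) : ∃ p, p < q ∧ ∀ d ∈ F,
    ((d.1 < q ∧ q ≤ d.1 + 1) ∧ d.1 ≤ p) ∨
      (¬ (d.1 < q ∧ q ≤ d.1 + 1) ∧ (q ≤ d.1 ∨ d.1 + 1 ≤ p)) := by
  classical
  induction F using Finset.induction_on with
  | empty => exact ⟨q - 1, by linarith, fun d hd => absurd hd (by simp)⟩
  | insert e F he ih =>
    obtain ⟨p, hp, hF⟩ := ih
    have shrink : ∀ p', p ≤ p' → ∀ d ∈ F, ((d.1 < q ∧ q ≤ d.1 + 1) ∧ d.1 ≤ p') ∨
        (¬ (d.1 < q ∧ q ≤ d.1 + 1) ∧ (q ≤ d.1 ∨ d.1 + 1 ≤ p')) := by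
      intro p' hp' d hd
      rcases hF d hd with ⟨h1, h2⟩ | ⟨h1, h2 | h2⟩
      · exact Or.inl ⟨h1, h2.trans hp'⟩
      · exact Or.inr ⟨h1, Or.inl h2⟩
      · exact Or.inr ⟨h1, Or.inr (h2.trans hp')⟩
    by_cases h1 : e.1 < q
    · by_cases h2 : q ≤ e.1 + 1
      · refine ⟨max p e.1, max_lt hp h1, ?_⟩
        intro d hd
        rcases Finset.mem_insert.1 hd with rfl | hd
        · exact Or.inl ⟨⟨h1, h2⟩, le_max_right _ _⟩
        · exact shrink _ (le_max_left _ _) d hd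
      · refine ⟨max p (e.1 + 1), max_lt hp (not_le.1 h2), ?_⟩
        intro d hd
        rcases Finset.mem_insert.1 hd with rfl | hd
        · exact Or.inr ⟨fun h => h2 h.2, Or.inr (le_max_right _ _)⟩
        · exact shrink _ (le_max_left _ _) d hd
    · refine ⟨p, hp, ?_⟩
      intro d hd
      rcases Finset.mem_insert.1 hd with rfl | hd
      · exact Or.inr ⟨fun h => h1 h.1, Or.inl (not_lt.1 h1)⟩
      · exact hF d hd

/-- signs -/
def Sg (ρ : ℝ) : Prop := ρ = 1 ∨ ρ = -1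

theorem Sg.neg {ρ : ℝ} (h : Sg ρ) : Sg (-ρ) := by
  rcases h with rfl | rfl
  · right; rfl
  · left; norm_num

/-- the germ at an end of a bar, inside -/
theorem germ_in (F : Finset (ℝ × ℝ)) {ρ : ℝ} (hρ : Sg ρ) (s : ℝ) : ∃ p q, Gen F p q ∧
    ∀ e ∈ F, (Cov e p q ↔ (ρ * e.1 ≤ ρ * s ∧ ρ * s < ρ * e.1 + 1)) := by
  rcases hρ with rfl | rfl
  · obtain ⟨q, hq, h⟩ := gen_right F s
    refine ⟨s, q, ⟨hq, fun d hd => ?_⟩, fun e he => ?_⟩
    · rcases h d (by simpa using hd) with ⟨h1, h2⟩ | ⟨_, h2⟩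
      · exact Or.inl ⟨h1.1, h2⟩
      · exact Or.inr h2
    · unfold Cov
      simp only [one_mul]
      rcases h e he with ⟨h1, h2⟩ | ⟨h1, h2⟩
      · exact iff_of_true ⟨h1.1, h2⟩ h1
      · refine iff_of_false ?_ h1
        rintro ⟨h3, h4⟩
        exact h1 ⟨h3, lt_of_lt_of_le hq h4⟩
  · obtain ⟨p, hp, h⟩ := gen_left F (s + 1)
    refine ⟨p, s + 1, ⟨hp, fun d hd => ?_⟩, fun e he => ?_⟩
    · rcases h d (by simpa using hd) with ⟨h1, h2⟩ | ⟨_, h2⟩
      · exact Or.inl ⟨h2, h1.2⟩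
      · exact Or.inr h2
    · unfold Cov
      rcases h e he with ⟨h1, h2⟩ | ⟨h1, h2⟩
      · exact iff_of_true ⟨h2, h1.2⟩ ⟨by linarith [h1.2], by linarith [h1.1]⟩
      · refine iff_of_false ?_ ?_
        · rintro ⟨h3, h4⟩
          exact h1 ⟨by linarith, h4⟩
        · rintro ⟨h3, h4⟩
          exact h1 ⟨by linarith, by linarith⟩

/-- the germ to the left of a bar -/
theorem germ_out (F : Finset (ℝ × ℝ)) (s : ℝ) : ∃ p q, Gen F p q ∧
    ∀ e ∈ F, (Cov e p q ↔ (e.1 < s ∧ s ≤ e.1 + 1)) := by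
  obtain ⟨p, hp, h⟩ := gen_left F s
  refine ⟨p, s, ⟨hp, fun d hd => ?_⟩, fun e he => ?_⟩
  · rcases h d (by simpa using hd) with ⟨h1, h2⟩ | ⟨_, h2⟩
    · exact Or.inl ⟨h2, h1.2⟩
    · exact Or.inr h2
  · unfold Cov
    rcases h e he with ⟨h1, h2⟩ | ⟨h1, h2⟩
    · exact iff_of_true ⟨h2, h1.2⟩ h1
    · refine iff_of_false ?_ h1
      rintro ⟨h3, h4⟩
      exact h1 ⟨by linarith, h4⟩

theorem seg_nonempty (b : ℝ × ℝ) : (b.1, b.2) ∈ seg b := ⟨le_refl _, by simp, rfl⟩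

/-- what visibility of two bars means for their coordinates -/
theorem below_coord {B : Set (ℝ × ℝ)} {b b' : ℝ × ℝ} (h : Below B b b') :
    b.2 < b'.2 ∧ ∃ l r : ℝ, l < r ∧ b.1 ≤ l ∧ r ≤ b.1 + 1 ∧ b'.1 ≤ l ∧ r ≤ b'.1 + 1 ∧
      ∀ c ∈ B, b.2 < c.2 → c.2 < b'.2 → (r < c.1 ∨ c.1 + 1 < l) := by
  obtain ⟨l, r, lo, hi, hlr, hlohi, h1, h2, h3⟩ := h
  have a1 := h1 l ⟨le_refl _, hlr.le⟩
  have a2 := h1 r ⟨hlr.le, le_refl _⟩
  have a3 := h2 l ⟨le_refl _, hlr.le⟩
  have a4 := h2 r ⟨hlr.le, le_refl _⟩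
  simp only [seg, Set.mem_ofPred_eq] at a1 a2 a3 a4
  refine ⟨by rw [← a1.2.2, ← a3.2.2]; exact hlohi, l, r, hlr, a1.1, a2.2.1, a3.1, a4.2.1, ?_⟩
  intro c hc hc1 hc2
  by_contra hcon
  push Not at hcon
  have hcb : c ≠ b := fun h => by rw [h] at hc1; exact lt_irrefl _ hc1
  have hcb' : c ≠ b' := fun h => by rw [h] at hc2; exact lt_irrefl _ hc2
  refine h3 c hc hcb hcb' (max l c.1) ⟨le_max_left _ _, max_le hlr.le hcon.1⟩ c.2
    ⟨by rw [a1.2.2]; exact hc1.le, by rw [a3.2.2]; exact hc2.le⟩ ?_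
  exact ⟨le_max_right _ _, max_le hcon.2 (by linarith), rfl⟩

variable {V : Type*} {G : SimpleGraph V} {t : ℕ} {R : V → Finset (ℝ × ℝ)}

/-- the collection of all bars -/
abbrev All (R : V → Finset (ℝ × ℝ)) : Set (ℝ × ℝ) := {d | ∃ v, d ∈ R v}

/-- two bars which share a point are equal and belong to the same vertex -/
theorem IsRep.share (h : IsRep G t R) {v w : V} {b c : ℝ × ℝ} (hb : b ∈ R v) (hc : c ∈ R w)
    (h2 : b.2 = c.2) {s : ℝ} (h3 : b.1 ≤ s ∧ s ≤ b.1 + 1) (h4 : c.1 ≤ s ∧ s ≤ c.1 + 1) :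
    v = w ∧ b = c := by
  by_contra hne
  have hne' : v ≠ w ∨ b ≠ c := by
    by_contra hcon
    push Not at hcon
    exact hne hcon
  have hd := h.2.1 v w b hb c hc hne'
  exact Set.disjoint_left.1 hd (show (s, b.2) ∈ seg b from ⟨h3.1, h3.2, rfl⟩)
    (show (s, b.2) ∈ seg c from ⟨h4.1, h4.2, h2⟩)

/-- consecutive bars on a generic interval see each other -/
theorem IsRep.consec (h : IsRep G t R) {p q : ℝ} (hg : Gen (All R) p q) {a b : ℝ × ℝ}
    (ha : a ∈ All R) (hb : b ∈ All R) (hac : Cov a p q) (hbc : Cov b p q) (hab : a.2 < b.2)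
    (hno : ∀ d ∈ All R, Cov d p q → a.2 < d.2 → d.2 < b.2 → False) : Below (All R) a b := by
  have hpq := hg.1
  refine ⟨(2 * p + q) / 3, (p + 2 * q) / 3, a.2, b.2, by linarith, hab, ?_, ?_, ?_⟩
  · rintro s ⟨h1, h2⟩
    exact ⟨by linarith [hac.1], by linarith [hac.2], rfl⟩
  · rintro s ⟨h1, h2⟩
    exact ⟨by linarith [hbc.1], by linarith [hbc.2], rfl⟩
  · rintro c hc hca hcb s ⟨h1, h2⟩ η ⟨h3, h4⟩ ⟨m1, m2, m3⟩
    simp only at m1 m2 m3
    subst m3
    obtain ⟨v, hv⟩ := id hc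
    obtain ⟨w, hw⟩ := id ha
    obtain ⟨u, hu⟩ := id hb
    have e1 : a.2 ≠ c.2 := by
      intro e
      exact hca (h.share hw hv e (s := s) ⟨by linarith [hac.1], by linarith [hac.2]⟩
        ⟨m1, m2⟩).2.symm
    have e2 : b.2 ≠ c.2 := by
      intro e
      exact hcb (h.share hu hv e (s := s) ⟨by linarith [hbc.1], by linarith [hbc.2]⟩
        ⟨m1, m2⟩).2.symm
    have hcov : Cov c p q := by
      rcases hg.2 c hc with h' | h' | h'
      · exact h'
      · linarith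
      · linarith
    exact hno c hc hcov (lt_of_le_of_ne h3 e1) (lt_of_le_of_ne h4 (Ne.symm e2))

/-- between a bar without the property `P` and a bar with the property `P` there are two
consecutive ones -/
theorem IsRep.switch [Finite V] (h : IsRep G t R) {p q : ℝ} (hg : Gen (All R) p q)
    (P : ℝ × ℝ → Prop) {a0 b0 : ℝ × ℝ} (ha : a0 ∈ All R) (hb : b0 ∈ All R) (hac : Cov a0 p q)
    (hbc : Cov b0 p q) (hab : a0.2 < b0.2) (hPa : ¬ P a0) (hPb : P b0) :
    ∃ a ∈ All R, ∃ b ∈ All R, Cov a p q ∧ Cov b p q ∧ a0.2 ≤ a.2 ∧ a.2 < b.2 ∧ b.2 ≤ b0.2 ∧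
      ¬ P a ∧ P b ∧ Below (All R) a b := by
  classical
  have hfin : (All R).Finite := by
    have : All R = ⋃ v, (R v : Set (ℝ × ℝ)) := by ext d; simp [All]
    rw [this]
    exact Set.finite_iUnion fun v => (R v).finite_toSet
  let S1 : Set (ℝ × ℝ) := {d | d ∈ All R ∧ Cov d p q ∧ a0.2 < d.2 ∧ P d}
  have hS1 : S1.Finite := hfin.subset fun d hd => hd.1
  obtain ⟨b, hbS, hbmin⟩ := Set.exists_min_image S1 Prod.snd hS1 ⟨b0, hb, hbc, hab, hPb⟩
  let S2 : Set (ℝ × ℝ) := {d | d ∈ All R ∧ Cov d p q ∧ d.2 < b.2}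
  have hS2 : S2.Finite := hfin.subset fun d hd => hd.1
  obtain ⟨a, haS, hamax⟩ := Set.exists_max_image S2 Prod.snd hS2 ⟨a0, ha, hac, hbS.2.2.1⟩
  have h1 : a0.2 ≤ a.2 := hamax a0 ⟨ha, hac, hbS.2.2.1⟩
  have h2 : b.2 ≤ b0.2 := hbmin b0 ⟨hb, hbc, hab, hPb⟩
  have hPa' : ¬ P a := by
    intro hP
    rcases h1.lt_or_eq with h' | h'
    · have := hbmin a ⟨haS.1, haS.2.1, h', hP⟩
      have := haS.2.2
      linarith
    · obtain ⟨v, hv⟩ := id ha
      obtain ⟨w, hw⟩ := id haS.1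
      have hpq := hg.1
      have := (h.share hv hw h' (s := p) ⟨hac.1, by linarith [hac.2]⟩
        ⟨haS.2.1.1, by linarith [haS.2.1.2]⟩).2
      rw [this] at hPa
      exact hPa hP
  refine ⟨a, haS.1, b, hbS.1, haS.2.1, hbS.2.1, h1, haS.2.2, h2, hPa', hbS.2.2.2, ?_⟩
  refine h.consec hg haS.1 hbS.1 haS.2.1 hbS.2.1 haS.2.2 ?_
  intro d hd hdc hd1 hd2
  have := hamax d ⟨hd, hdc, hd2⟩
  linarith

/-- star-like neighbourhoods: `x` is adjacent to all other vertices, which are pairwise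
nonadjacent -/
structure Star (G : SimpleGraph V) (x : V) : Prop where
  adj : ∀ v, v ≠ x → G.Adj x v
  nadj : ∀ v w, v ≠ x → w ≠ x → ¬ G.Adj v w

theorem Sees.symm {B : Set (ℝ × ℝ)} {b c : ℝ × ℝ} (h : Sees B b c) : Sees B c b := Or.symm h

theorem IsRep.label (h : IsRep G t R) {v w : V} {b : ℝ × ℝ} (hb : b ∈ R v) (hc : b ∈ R w) :
    v = w := (h.share hb hc rfl (s := b.1) ⟨le_refl _, by simp⟩ ⟨le_refl _, by simp⟩).1

/-- a bar which sees a bar of a leaf `v` and does not belong to `v` is a bar of the centre -/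
theorem IsRep.centre (h : IsRep G t R) {x : V} (hs : Star G x) {v : V} (hv : v ≠ x)
    {a b : ℝ × ℝ} (ha : a ∈ All R) (hav : a ∉ R v) (hb : b ∈ R v) (hsee : Sees (All R) a b) :
    a ∈ R x := by
  obtain ⟨w, hw⟩ := ha
  have hwv : w ≠ v := by rintro rfl; exact hav hw
  have hadj : G.Adj w v := (h.2.2 w v hwv).2 ⟨a, hw, b, hb, hsee⟩
  by_contra hcon
  have hwx : w ≠ x := by rintro rfl; exact hcon hw
  exact hs.nadj w v hwx hv hadj

/-- the switching lemma for a leaf, in both directions -/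
theorem IsRep.dd [Finite V] (h : IsRep G t R) {x : V} (hs : Star G x) {v : V} (hv : v ≠ x)
    {σ : ℝ} (hσ : Sg σ) {p q : ℝ} (hg : Gen (All R) p q) {a0 b0 : ℝ × ℝ} (ha : a0 ∈ All R)
    (hav : a0 ∉ R v) (hb : b0 ∈ R v) (hac : Cov a0 p q) (hbc : Cov b0 p q)
    (hab : σ * a0.2 < σ * b0.2) :
    ∃ a ∈ R x, ∃ b ∈ R v, Cov a p q ∧ σ * a0.2 ≤ σ * a.2 ∧ σ * a.2 < σ * b.2 ∧
      σ * b.2 ≤ σ * b0.2 ∧ Sees (All R) a b := by
  rcases hσ with rfl | rfl
  · simp only [one_mul] at hab ⊢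
    obtain ⟨a, haR, b, hbR, hca, hcb, h1, h2, h3, hPa, hPb, hbel⟩ :=
      h.switch hg (fun d => d ∈ R v) ha ⟨v, hb⟩ hac hbc hab hav hb
    exact ⟨a, h.centre hs hv haR hPa hPb (Or.inl hbel), b, hPb, hca, h1, h2, h3, Or.inl hbel⟩
  · have hab' : b0.2 < a0.2 := by linarith
    obtain ⟨b, hbR, a, haR, hcb, hca, h1, h2, h3, hPb, hPa, hbel⟩ :=
      h.switch hg (fun d => d ∉ R v) ⟨v, hb⟩ ha hbc hac hab' (not_not.2 hb) hav
    have hPb' : b ∈ R v := not_not.1 hPb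
    exact ⟨a, h.centre hs hv haR hPa hPb' (Or.inr hbel), b, hPb', hca, by linarith, by linarith,
      by linarith, Or.inr hbel⟩

/-- a closest pair (bar of the centre, bar of the leaf `v`) -/
structure MinPair (R : V → Finset (ℝ × ℝ)) (x v : V) (b c : ℝ × ℝ) : Prop where
  hb : b ∈ R x
  hc : c ∈ R v
  sees : Sees (All R) b c
  min : ∀ b' ∈ R x, ∀ c' ∈ R v, Sees (All R) b' c' → |b.2 - c.2| ≤ |b'.2 - c'.2|

/-- `c` is the first bar which one meets when one leaves `b` near one of its ends -/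
def Corner (R : V → Finset (ℝ × ℝ)) (ρ σ : ℝ) (b c : ℝ × ℝ) : Prop :=
  σ * b.2 < σ * c.2 ∧ ρ * c.1 ≤ ρ * b.1 ∧ ρ * b.1 < ρ * c.1 + 1 ∧
    ∀ d ∈ All R, σ * b.2 < σ * d.2 → σ * d.2 < σ * c.2 → ¬ (ρ * d.1 ≤ ρ * b.1 ∧ ρ * b.1 < ρ * d.1 + 1)

theorem MinPair.lt {x v : V} {b c : ℝ × ℝ} (hm : MinPair R x v b c) {σ : ℝ} (hσ : Sg σ)
    (hbc : σ * b.2 < σ * c.2) {b' c' : ℝ × ℝ} (hb' : b' ∈ R x) (hc' : c' ∈ R v)
    (hs : Sees (All R) b' c') (h' : σ * b'.2 < σ * c'.2) :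
    σ * c.2 - σ * b.2 ≤ σ * c'.2 - σ * b'.2 := by
  have h := hm.min b' hb' c' hc' hs
  rcases hσ with rfl | rfl
  · simp only [one_mul] at *
    rw [abs_of_neg (by linarith), abs_of_neg (by linarith)] at h
    linarith
  · rw [abs_of_pos (by linarith), abs_of_pos (by linarith)] at h
    linarith

/-- the collection of all bars as a finite set -/
theorem exists_fin [Finite V] (R : V → Finset (ℝ × ℝ)) : ∃ F : Finset (ℝ × ℝ), (F : Set (ℝ × ℝ)) = All R := by
  have hfin : (All R).Finite := by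
    have : All R = ⋃ v, (R v : Set (ℝ × ℝ)) := by ext d; simp [All]
    rw [this]
    exact Set.finite_iUnion fun v => (R v).finite_toSet
  exact ⟨hfin.toFinset, by simp⟩

theorem IsRep.corner [Finite V] (h : IsRep G t R) {x : V} (hs : Star G x) {v : V} (hv : v ≠ x)
    {b c : ℝ × ℝ} (hm : MinPair R x v b c) {ρ σ : ℝ} (hρ : Sg ρ) (hσ : Sg σ)
    (hbc : σ * b.2 < σ * c.2) (hcb : ρ * c.1 ≤ ρ * b.1) : Corner R ρ σ b c := by
  obtain ⟨l, r, hlr, h1, h2, h3, h4, h5⟩ : ∃ l r : ℝ, l < r ∧ b.1 ≤ l ∧ r ≤ b.1 + 1 ∧ c.1 ≤ l ∧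
      r ≤ c.1 + 1 ∧ ∀ d ∈ All R, σ * b.2 < σ * d.2 → σ * d.2 < σ * c.2 →
        (r < d.1 ∨ d.1 + 1 < l) := by
    rcases hσ with rfl | rfl
    · rcases hm.sees with hbel | hbel
      · obtain ⟨_, l, r, hlr, h1, h2, h3, h4, h5⟩ := below_coord hbel
        exact ⟨l, r, hlr, h1, h2, h3, h4, fun d hd e1 e2 => h5 d hd (by linarith) (by linarith)⟩
      · have := (below_coord hbel).1; linarith
    · rcases hm.sees with hbel | hbel
      · have := (below_coord hbel).1; linarith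
      · obtain ⟨_, l, r, hlr, h1, h2, h3, h4, h5⟩ := below_coord hbel
        exact ⟨l, r, hlr, h3, h4, h1, h2, fun d hd e1 e2 => h5 d hd (by linarith) (by linarith)⟩
  have hov : ρ * b.1 < ρ * c.1 + 1 := by
    rcases hρ with rfl | rfl <;> linarith
  refine ⟨hbc, hcb, hov, ?_⟩
  rintro d hd hd1 hd2 ⟨hd3, hd4⟩
  have hdc : ρ * d.1 < ρ * c.1 := by
    rcases hρ with rfl | rfl
    · rcases h5 d hd hd1 hd2 with h' | h' <;> linarith
    · rcases h5 d hd hd1 hd2 with h' | h' <;> linarith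
  obtain ⟨F, hF⟩ := exists_fin R
  obtain ⟨p, q, hg, hcov⟩ := germ_in F hρ.neg d.1
  rw [hF] at hg
  have hmem : ∀ e, e ∈ All R → e ∈ F := fun e he => by
    have : e ∈ (F : Set (ℝ × ℝ)) := by rw [hF]; exact he
    simpa using this
  have hcovd : Cov d p q := (hcov d (hmem d hd)).2 ⟨le_refl _, by linarith⟩
  have hcovc : Cov c p q := (hcov c (hmem c ⟨v, hm.hc⟩)).2 ⟨by linarith, by linarith⟩
  have hcovb : Cov b p q := (hcov b (hmem b ⟨x, hm.hb⟩)).2 ⟨by linarith, by linarith⟩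
  by_cases hdv : d ∈ R v
  · have hbv : b ∉ R v := fun h' => hv (h.label h' hm.hb)
    obtain ⟨a, ha, b', hb', _, e1, e2, e3, hsee⟩ :=
      h.dd hs hv hσ hg ⟨x, hm.hb⟩ hbv hdv hcovb hcovd hd1
    have := hm.lt hσ hbc ha hb' hsee e2
    linarith
  · obtain ⟨a, ha, b', hb', _, e1, e2, e3, hsee⟩ :=
      h.dd hs hv hσ hg hd hdv hm.hc hcovd hcovc hd2
    have := hm.lt hσ hbc ha hb' hsee e2
    linarith

/-- different leaves have different corners -/
theorem IsRep.corner_inj (h : IsRep G t R) {v w : V} {ρ σ : ℝ} (hρ : Sg ρ) (hσ : Sg σ)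
    {b c c' : ℝ × ℝ} (hc : c ∈ R v) (hc' : c' ∈ R w) (h1 : Corner R ρ σ b c)
    (h2 : Corner R ρ σ b c') : v = w := by
  rcases lt_trichotomy (σ * c.2) (σ * c'.2) with h' | h' | h'
  · exact absurd ⟨h1.2.1, h1.2.2.1⟩ (h2.2.2.2 c ⟨v, hc⟩ h1.1 h')
  · have e : c.2 = c'.2 := by rcases hσ with rfl | rfl <;> linarith
    rcases hρ with rfl | rfl
    · exact (h.share hc hc' e (s := b.1) ⟨by linarith [h1.2.1], by linarith [h1.2.2.1]⟩
        ⟨by linarith [h2.2.1], by linarith [h2.2.2.1]⟩).1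
    · exact (h.share hc hc' e (s := b.1 + 1) ⟨by linarith [h1.2.2.1], by linarith [h1.2.1]⟩
        ⟨by linarith [h2.2.2.1], by linarith [h2.2.1]⟩).1
  · exact absurd ⟨h2.2.1, h2.2.2.1⟩ (h1.2.2.2 c' ⟨w, hc'⟩ h2.1 h')

/-- if a corner bar is aligned with `b` then the other corner on the same side cannot belong to
a different leaf -/
theorem IsRep.aligned [Finite V] (h : IsRep G t R) {x : V} (hs : Star G x) {v w : V} (hv : v ≠ x)
    (hvw : v ≠ w) {b c c' : ℝ × ℝ} (hm : MinPair R x v b c) (hc' : c' ∈ R w) {ρ σ : ℝ} (hρ : Sg ρ)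
    (hσ : Sg σ) (h1 : Corner R ρ σ b c) (h2 : Corner R (-ρ) σ b c') (heq : c.1 = b.1) : False := by
  have h1' : Corner R (-ρ) σ b c → False := fun h' => hvw (h.corner_inj hρ.neg hσ hm.hc hc' h' h2)
  obtain ⟨F, hF⟩ := exists_fin R
  obtain ⟨p, q, hg, hcov⟩ := germ_in F hρ.neg b.1
  rw [hF] at hg
  have hmem : ∀ e, e ∈ All R → e ∈ F := fun e he => by
    have : e ∈ (F : Set (ℝ × ℝ)) := by rw [hF]; exact he
    simpa using this
  have hcovc : Cov c p q := (hcov c (hmem c ⟨v, hm.hc⟩)).2 (by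
    rw [heq]; exact ⟨le_refl _, by linarith⟩)
  have hcovc' : Cov c' p q := (hcov c' (hmem c' ⟨w, hc'⟩)).2 ⟨h2.2.1, h2.2.2.1⟩
  have hlt : σ * c'.2 < σ * c.2 := by
    rcases lt_trichotomy (σ * c.2) (σ * c'.2) with h' | h' | h'
    · exact absurd ⟨by rw [heq], by rw [heq]; linarith⟩ (h2.2.2.2 c ⟨v, hm.hc⟩ h1.1 h')
    · exfalso
      have e : c.2 = c'.2 := by rcases hσ with rfl | rfl <;> linarith
      have hpq := hg.1
      exact hvw (h.share hm.hc hc' e (s := p) ⟨hcovc.1, by linarith [hcovc.2]⟩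
        ⟨hcovc'.1, by linarith [hcovc'.2]⟩).1
    · exact h'
  have hc'v : c' ∉ R v := fun h' => hvw (h.label h' hc')
  obtain ⟨a, ha, b', hb', _, e1, e2, e3, hsee⟩ :=
    h.dd hs hv hσ hg ⟨w, hc'⟩ hc'v hm.hc hcovc' hcovc hlt
  have := hm.lt hσ h1.1 ha hb' hsee e2
  have := h2.1
  linarith

/-- two corner bars of different leaves, above and below, cannot both stick out to the left -/
theorem IsRep.stick [Finite V] (h : IsRep G t R) {x : V} (hs : Star G x) {v w : V} (hv : v ≠ x)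
    (hw : w ≠ x) (hvw : v ≠ w) {b c c' : ℝ × ℝ} (hm : MinPair R x v b c)
    (hm' : MinPair R x w b c') (h1 : Corner R 1 1 b c) (h2 : Corner R 1 (-1) b c')
    (hc : c.1 < b.1) (hc' : c'.1 < b.1) : False := by
  obtain ⟨F, hF⟩ := exists_fin R
  obtain ⟨p, q, hg, hcov⟩ := germ_out F b.1
  rw [hF] at hg
  have hmem : ∀ e, e ∈ All R → e ∈ F := fun e he => by
    have : e ∈ (F : Set (ℝ × ℝ)) := by rw [hF]; exact he
    simpa using this
  have k1 := h1.1
  have k2 := h1.2.2.1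
  have k3 := h2.1
  have k4 := h2.2.2.1
  have hcovc : Cov c p q := (hcov c (hmem c ⟨v, hm.hc⟩)).2 ⟨hc, by linarith⟩
  have hcovc' : Cov c' p q := (hcov c' (hmem c' ⟨w, hm'.hc⟩)).2 ⟨hc', by linarith⟩
  have hc'v : c' ∉ R v := fun h' => hvw (h.label h' hm'.hc)
  obtain ⟨a, ha, b', hb', hca, e1, e2, e3, hsee⟩ :=
    h.dd hs hv (Or.inl rfl) hg ⟨w, hm'.hc⟩ hc'v hm.hc hcovc' hcovc (by linarith)
  have m1 := hm.lt (Or.inl rfl) h1.1 ha hb' hsee e2
  have hcova := (hcov a (hmem a ⟨x, ha⟩)).1 hca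
  have hab : a.2 ≠ b.2 := by
    intro e
    have := (h.share ha hm.hb e (s := b.1) ⟨hcova.1.le, hcova.2⟩ ⟨le_refl _, by linarith⟩).2
    rw [this] at hcova
    exact lt_irrefl _ hcova.1
  have hab' : a.2 < b.2 := lt_of_le_of_ne (by linarith) hab
  have hac' : a.2 ≠ c'.2 := by
    intro e
    have hpq := hg.1
    exact hw (h.share ha hm'.hc e (s := p) ⟨hca.1, by linarith [hca.2]⟩
      ⟨hcovc'.1, by linarith [hcovc'.2]⟩).1.symm
  have hac'' : c'.2 < a.2 := lt_of_le_of_ne (by linarith) (Ne.symm hac')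
  have haw : a ∉ R w := fun h' => hw (h.label h' ha)
  obtain ⟨a', ha', b'', hb'', _, f1, f2, f3, hsee'⟩ :=
    h.dd hs hw (Or.inr rfl) hg ⟨x, ha⟩ haw hm'.hc hca hcovc' (by linarith)
  have m2 := hm'.lt (Or.inr rfl) h2.1 ha' hb'' hsee' f2
  linarith

/-- the sign of a boolean -/
noncomputable def sgn (b : Bool) : ℝ := if b then 1 else -1

theorem sg_sgn (b : Bool) : Sg (sgn b) := by
  cases b
  · right; simp [sgn]
  · left; simp [sgn]

theorem exists_minPair [Finite V] (h : IsRep G t R) {x : V} (hs : Star G x) {v : V} (hv : v ≠ x) :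
    ∃ b c, MinPair R x v b c := by
  classical
  obtain ⟨b0, hb0, c0, hc0, hsee⟩ := (h.2.2 x v hv.symm).1 (hs.adj v hv)
  have hne : (((R x) ×ˢ (R v)).filter fun e => Sees (All R) e.1 e.2).Nonempty :=
    ⟨(b0, c0), Finset.mem_filter.2 ⟨Finset.mem_product.2 ⟨hb0, hc0⟩, hsee⟩⟩
  obtain ⟨⟨b, c⟩, hbc, hmin⟩ := Finset.exists_min_image _ (fun e => |e.1.2 - e.2.2|) hne
  rw [Finset.mem_filter, Finset.mem_product] at hbc
  refine ⟨b, c, hbc.1.1, hbc.1.2, hbc.2, ?_⟩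
  intro b' hb' c' hc' hs'
  exact hmin (b', c') (Finset.mem_filter.2 ⟨Finset.mem_product.2 ⟨hb', hc'⟩, hs'⟩)

theorem IsRep.exists_corner [Finite V] (h : IsRep G t R) {x : V} (hs : Star G x) {v : V}
    (hv : v ≠ x) {b c : ℝ × ℝ} (hm : MinPair R x v b c) :
    ∃ κ : Bool × Bool, Corner R (sgn κ.1) (sgn κ.2) b c := by
  have e1 : ∃ σ : Bool, sgn σ * b.2 < sgn σ * c.2 := by
    rcases hm.sees with hbel | hbel
    · exact ⟨true, by have := (below_coord hbel).1; simpa [sgn] using this⟩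
    · exact ⟨false, by have := (below_coord hbel).1; simpa [sgn] using this⟩
  have e2 : ∃ ρ : Bool, sgn ρ * c.1 ≤ sgn ρ * b.1 := by
    rcases le_total c.1 b.1 with h' | h'
    · exact ⟨true, by simpa [sgn] using h'⟩
    · exact ⟨false, by simpa [sgn] using h'⟩
  obtain ⟨σ, hσ⟩ := e1
  obtain ⟨ρ, hρ⟩ := e2
  exact ⟨(ρ, σ), h.corner hs hv hm (sg_sgn ρ) (sg_sgn σ) hσ hρ⟩

/-- stars need `(n - 1) / 3` bars -/
theorem IsRep.star_lower [Fintype V] (h : IsRep G t R) {x : V} (hs : Star G x) :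
    Fintype.card V ≤ 3 * t + 1 := by
  classical
  have h1 : ∀ v : V, ∃ b c, v ≠ x → MinPair R x v b c := by
    intro v
    by_cases hv : v = x
    · exact ⟨(0, 0), (0, 0), fun h' => absurd hv h'⟩
    · obtain ⟨b, c, hbc⟩ := exists_minPair h hs hv
      exact ⟨b, c, fun _ => hbc⟩
  choose b c hbc using h1
  have h2 : ∀ v : V, ∃ κ : Bool × Bool, v ≠ x → Corner R (sgn κ.1) (sgn κ.2) (b v) (c v) := by
    intro v
    by_cases hv : v = x
    · exact ⟨(true, true), fun h' => absurd hv h'⟩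
    · obtain ⟨κ, hκ⟩ := h.exists_corner hs hv (hbc v hv)
      exact ⟨κ, fun _ => hκ⟩
  choose κ hκ using h2
  have key : ∀ b0 ∈ R x, ((Finset.univ.erase x).filter fun v => b v = b0).card ≤ 3 := by
    intro b0 _
    by_contra hcon
    push Not at hcon
    set S := (Finset.univ.erase x).filter fun v => b v = b0 with hS
    have hmemS : ∀ v, v ∈ S ↔ (v ≠ x ∧ b v = b0) := by
      intro v; rw [hS, Finset.mem_filter, Finset.mem_erase]; simp
    have hinj : Set.InjOn κ (S : Set V) := by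
      intro v hv w hw e
      have hv' := (hmemS v).1 hv
      have hw' := (hmemS w).1 hw
      have k1 := hκ v hv'.1
      have k2 := hκ w hw'.1
      rw [hv'.2] at k1
      rw [hw'.2, ← e] at k2
      exact h.corner_inj (sg_sgn _) (sg_sgn _) (hbc v hv'.1).hc (hbc w hw'.1).hc k1 k2
    have himg : S.image κ = Finset.univ := by
      apply Finset.eq_univ_of_card
      rw [Finset.card_image_of_injOn hinj]
      have : S.card ≤ Fintype.card (Bool × Bool) := by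
        rw [← Finset.card_image_of_injOn hinj]
        exact Finset.card_le_univ _
      have e4 : Fintype.card (Bool × Bool) = 4 := by simp
      omega
    have hsurj : ∀ k : Bool × Bool, ∃ v, v ≠ x ∧ b v = b0 ∧ κ v = k := by
      intro k
      have : k ∈ S.image κ := by rw [himg]; exact Finset.mem_univ _
      obtain ⟨v, hv, rfl⟩ := Finset.mem_image.1 this
      exact ⟨v, ((hmemS v).1 hv).1, ((hmemS v).1 hv).2, rfl⟩
    obtain ⟨v1, hv1, hb1, hk1⟩ := hsurj (true, true)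
    obtain ⟨v2, hv2, hb2, hk2⟩ := hsurj (false, true)
    obtain ⟨v3, hv3, hb3, hk3⟩ := hsurj (true, false)
    obtain ⟨v4, hv4, hb4, hk4⟩ := hsurj (false, false)
    have m1 := hbc v1 hv1
    have m2 := hbc v2 hv2
    have m3 := hbc v3 hv3
    have m4 := hbc v4 hv4
    have c1 := hκ v1 hv1
    have c2 := hκ v2 hv2
    have c3 := hκ v3 hv3
    have c4 := hκ v4 hv4
    rw [hk1, hb1] at c1
    rw [hk2, hb2] at c2
    rw [hk3, hb3] at c3
    rw [hk4, hb4] at c4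
    rw [hb1] at m1
    rw [hb2] at m2
    rw [hb3] at m3
    rw [hb4] at m4
    have s1 : sgn true = 1 := by simp [sgn]
    have s2 : sgn false = -1 := by simp [sgn]
    simp only [s1, s2] at c1 c2 c3 c4
    have n12 : v1 ≠ v2 := by rintro rfl; rw [hk1] at hk2; simp at hk2
    have n13 : v1 ≠ v3 := by rintro rfl; rw [hk1] at hk3; simp at hk3
    have n34 : v3 ≠ v4 := by rintro rfl; rw [hk3] at hk4; simp at hk4
    have l1 : (c v1).1 ≤ b0.1 := by have := c1.2.1; linarith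
    have l3 : (c v3).1 ≤ b0.1 := by have := c3.2.1; linarith
    rcases l1.lt_or_eq with l1 | l1
    · rcases l3.lt_or_eq with l3 | l3
      · exact h.stick hs hv1 hv3 n13 m1 m3 c1 c3 l1 l3
      · exact h.aligned hs hv3 n34 m3 m4.hc (Or.inl rfl) (Or.inr rfl) c3 c4 l3
    · exact h.aligned hs hv1 n12 m1 m2.hc (Or.inl rfl) (Or.inl rfl) c1 c2 l1
  have := Finset.card_le_mul_card_image_of_maps_to (s := Finset.univ.erase x) (t := R x) (f := b)
    (fun v hv => (hbc v (Finset.ne_of_mem_erase hv)).hb) 3 key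
  rw [Finset.card_erase_of_mem (Finset.mem_univ x), Finset.card_univ] at this
  have h3 := h.1 x
  omega

end Star

/-! ### The complete graph with four vertices -/

section KFour

/-- Four unit bars cannot see each other pairwise (bars listed by increasing height). -/
theorem no_four (x y : Fin 4 → ℝ) (_hy : StrictMono y)
    (h : ∀ i j : Fin 4, i < j → ∃ l r : ℝ, l < r ∧ x i ≤ l ∧ r ≤ x i + 1 ∧ x j ≤ l ∧ r ≤ x j + 1 ∧
      ∀ k, i < k → k < j → (r < x k ∨ x k + 1 < l)) : False := by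
  obtain ⟨l, r, hlr, h1, h2, h3, h4, h5⟩ := h 0 3 (by decide)
  obtain ⟨l', r', hlr', h1', h2', h3', h4', h5'⟩ := h 1 3 (by decide)
  obtain ⟨l2, r2, hlr2, g1, g2, g3, g4, g5⟩ := h 0 2 (by decide)
  obtain ⟨l3, r3, hlr3, e1, e2, e3, e4, -⟩ := h 1 2 (by decide)
  have k1 := h5 1 (by decide) (by decide)
  have k2 := h5 2 (by decide) (by decide)
  have k3 := h5' 2 (by decide) (by decide)
  have k4 := g5 1 (by decide) (by decide)
  rcases k1 with k1 | k1 <;> rcases k2 with k2 | k2 <;> rcases k3 with k3 | k3 <;>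
    rcases k4 with k4 | k4 <;> linarith

/-- `K₄` has no representation with one bar per vertex. -/
theorem not_rep_one : ¬ ∃ R, IsRep (⊤ : SimpleGraph (Fin 4)) 1 R := by
  rintro ⟨R, hcard, hdisj, hadj⟩
  have hne : ∀ v : Fin 4, ∃ b, b ∈ R v := by
    intro v
    obtain ⟨w, hw⟩ : ∃ w : Fin 4, v ≠ w := ⟨v + 1, by revert v; decide⟩
    obtain ⟨b, hb, -⟩ := (hadj v w hw).1 (by simpa using hw)
    exact ⟨b, hb⟩
  choose b hb using hne
  have hall : ∀ v c, c ∈ R v → c = b v := by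
    intro v c hc
    exact Finset.card_le_one.1 (hcard v) c hc (b v) (hb v)
  have hsees : ∀ v w : Fin 4, v ≠ w → Sees {d | ∃ v, d ∈ R v} (b v) (b w) := by
    intro v w hvw
    obtain ⟨c, hc, d, hd, h⟩ := (hadj v w hvw).1 (by simpa using hvw)
    rw [hall v c hc, hall w d hd] at h
    exact h
  have hyne : ∀ v w : Fin 4, v ≠ w → (b v).2 ≠ (b w).2 := by
    intro v w hvw
    rcases hsees v w hvw with h | h
    · exact ne_of_lt (below_coord h).1
    · exact (ne_of_lt (below_coord h).1).symm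
  have hbelow : ∀ v w : Fin 4, (b v).2 < (b w).2 → Below {d | ∃ v, d ∈ R v} (b v) (b w) := by
    intro v w hvw
    have hne : v ≠ w := fun h => by rw [h] at hvw; exact lt_irrefl _ hvw
    rcases hsees v w hne with h | h
    · exact h
    · exact absurd (below_coord h).1 (not_lt.2 hvw.le)
  let σ := Tuple.sort (fun v => (b v).2)
  have hmono : Monotone (fun i => (b (σ i)).2) := Tuple.monotone_sort (fun v => (b v).2)
  have hinj : Function.Injective (fun i => (b (σ i)).2) := by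
    intro i j hij
    by_contra hne
    exact hyne (σ i) (σ j) (fun h => hne (σ.injective h)) hij
  have hstrict : StrictMono (fun i => (b (σ i)).2) := hmono.strictMono_of_injective hinj
  apply no_four (fun i => (b (σ i)).1) (fun i => (b (σ i)).2) hstrict
  intro i j hij
  obtain ⟨l, r, hlr, h1, h2, h3, h4, h5⟩ := (below_coord (hbelow (σ i) (σ j) (hstrict hij))).2
  refine ⟨l, r, hlr, h1, h2, h3, h4, ?_⟩
  intro k hik hkj
  exact h5 (b (σ k)) ⟨σ k, hb _⟩ (hstrict hik) (hstrict hkj)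

end KFour

/-! ### The result -/

theorem ub_le {V : Type*} {G : SimpleGraph V} {t : ℕ} (ht : 1 ≤ t) (h : ∃ R, IsRep G t R) :
    ub G ≤ t := Nat.sInf_le ⟨ht, h⟩

theorem ub_mem {V : Type*} {G : SimpleGraph V} {t : ℕ} (ht : 1 ≤ t) (h : ∃ R, IsRep G t R) :
    1 ≤ ub G ∧ ∃ R, IsRep G (ub G) R := Nat.sInf_mem (s := {t | 1 ≤ t ∧ ∃ R, IsRep G t R}) ⟨t, ht, h⟩

theorem isRep_of_PW {n : ℕ} {G : SimpleGraph (Fin n)} {B : ℕ} (h : PW G Finset.univ B) :
    ∃ R, IsRep G B R := by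
  refine isRep_of_rep h (fun a b _ => by simp) (fun v => ?_)
  rw [iA_mem (Finset.mem_univ v)]
  omega

/-- the star with centre `0` -/
def starG (n : ℕ) [NeZero n] : SimpleGraph (Fin n) where
  Adj a b := a ≠ b ∧ (a = 0 ∨ b = 0)
  symm := ⟨fun _ _ h => ⟨h.1.symm, h.2.symm⟩⟩
  loopless := ⟨fun _ h => h.1 rfl⟩

theorem star_starG (n : ℕ) [NeZero n] : Star (starG n) 0 :=
  ⟨fun _ hv => ⟨hv.symm, Or.inl rfl⟩, fun _ _ hv hw h => h.2.elim hv hw⟩

/-- representations with `⌈(n - 1) / 3⌉` bars -/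
theorem upper_PW (n : ℕ) (h2 : 2 ≤ n) (h4 : n ≠ 4) (G : SimpleGraph (Fin n)) :
    PW G Finset.univ ((n + 1) / 3) := by
  have hc : (Finset.univ : Finset (Fin n)).card = n := by simp
  have h0 : n = 2 ∨ n = 3 ∨ 5 ≤ n := by omega
  rcases h0 with rfl | rfl | h5
  · exact pw2 hc
  · exact pw3 hc
  · exact upper n Finset.univ hc h5

theorem ceil_eq (n : ℕ) : ⌈((n : ℝ) - 1) / 3⌉ = (((n + 1) / 3 : ℕ) : ℤ) := by
  obtain ⟨z, hz⟩ : ∃ z, (n + 1) / 3 = z := ⟨_, rfl⟩
  rw [hz, Int.ceil_eq_iff]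
  have h1 : 3 * z ≤ n + 1 := by omega
  have h2 : n ≤ 3 * z + 1 := by omega
  have h1' : (3 : ℝ) * z ≤ n + 1 := by exact_mod_cast h1
  have h2' : (n : ℝ) ≤ 3 * z + 1 := by exact_mod_cast h2
  constructor
  · push_cast; linarith
  · push_cast; linarith

theorem ub_four (G : SimpleGraph (Fin 4)) : 1 < ub G ↔ G = ⊤ := by
  have hc : (Finset.univ : Finset (Fin 4)).card = 4 := by simp
  constructor
  · intro h
    by_contra hne
    have hn : ¬ ∀ a ∈ (Finset.univ : Finset (Fin 4)), ∀ b ∈ (Finset.univ : Finset (Fin 4)),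
        a ≠ b → G.Adj a b := by
      intro hall
      apply hne
      ext a b
      rw [SimpleGraph.top_adj]
      exact ⟨fun h => h.ne, fun h => hall a (Finset.mem_univ a) b (Finset.mem_univ b) h⟩
    have := ub_le le_rfl (isRep_of_PW (pw4 hc hn))
    omega
  · rintro rfl
    have h2 := isRep_of_PW (pw4' (G := (⊤ : SimpleGraph (Fin 4))) hc
      (fun a _ b _ hab => by simpa using hab))
    obtain ⟨h1, h3⟩ := ub_mem (by norm_num) h2
    rcases h1.lt_or_eq with h1 | h1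
    · exact h1
    · rw [← h1] at h3
      exact absurd h3 not_rep_one

theorem value_main (n : ℕ) (h2 : 2 ≤ n) (h4 : n ≠ 4) :
    IsGreatest (Set.range fun G : SimpleGraph (Fin n) => (ub G : ℤ)) ⌈((n : ℝ) - 1) / 3⌉ := by
  rw [ceil_eq n]
  have hup : ∀ G : SimpleGraph (Fin n), ub G ≤ (n + 1) / 3 := fun G =>
    ub_le (by omega) (isRep_of_PW (upper_PW n h2 h4 G))
  constructor
  · have : NeZero n := ⟨by omega⟩
    refine ⟨starG n, ?_⟩
    obtain ⟨h1, R, hR⟩ := ub_mem (t := (n + 1) / 3) (by omega)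
      (isRep_of_PW (upper_PW n h2 h4 (starG n)))
    have h3 := hR.star_lower (star_starG n)
    rw [Fintype.card_fin] at h3
    have h5 := hup (starG n)
    have : ub (starG n) = (n + 1) / 3 := by omega
    simp only [this]
  · rintro _ ⟨G, rfl⟩
    have := hup G
    simp only
    exact_mod_cast this

theorem value_four :
    IsGreatest (Set.range fun G : SimpleGraph (Fin 4) => (ub G : ℤ)) 2 := by
  have hc : (Finset.univ : Finset (Fin 4)).card = 4 := by simp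
  constructor
  · refine ⟨⊤, ?_⟩
    have h1 := (ub_four ⊤).2 rfl
    have h2 := ub_le (G := (⊤ : SimpleGraph (Fin 4))) (by norm_num)
      (isRep_of_PW (pw4' hc (fun a _ b _ hab => by simpa using hab)))
    simp only
    omega
  · rintro _ ⟨G, rfl⟩
    simp only
    have : ub G ≤ 2 := by
      by_cases hG : G = ⊤
      · subst hG
        exact ub_le (by norm_num)
          (isRep_of_PW (pw4' hc (fun a _ b _ hab => by simpa using hab)))
      · have h1 := (ub_four G).not.2 hG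
        omega
    exact_mod_cast this

theorem value_one :
    IsGreatest (Set.range fun G : SimpleGraph (Fin 1) => (ub G : ℤ)) 1 := by
  have hrep : ∀ G : SimpleGraph (Fin 1), ∃ R, IsRep G 1 R := by
    intro G
    refine ⟨fun _ => ∅, fun v => by simp, fun v w b hb => absurd hb (by simp), ?_⟩
    intro x y hxy
    exact absurd (Subsingleton.elim x y) hxy
  constructor
  · refine ⟨⊤, ?_⟩
    have h1 := ub_le (le_refl 1) (hrep ⊤)
    have h2 := (ub_mem (le_refl 1) (hrep ⊤)).1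
    simp only
    omega
  · rintro _ ⟨G, rfl⟩
    have := ub_le (le_refl 1) (hrep G)
    simp only
    exact_mod_cast this

/-- **The maximum unit bar visibility number of `n`-vertex graphs.** It is `⌈(n - 1) / 3⌉` for
every `n ≥ 2` different from `4`; for `n = 4` it is `2`, and for `n = 1` it is `1`. -/
theorem result (n : ℕ) (hn : 1 ≤ n) :
    IsGreatest (Set.range fun G : SimpleGraph (Fin n) => (ub G : ℤ))
      (if n = 1 then 1 else if n = 4 then 2 else ⌈((n : ℝ) - 1) / 3⌉) := by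
  by_cases h1 : n = 1
  · subst h1
    rw [if_pos rfl]
    exact value_one
  · rw [if_neg h1]
    by_cases h4 : n = 4
    · subst h4
      rw [if_pos rfl]
      exact value_four
    · rw [if_neg h4]
      exact value_main n (by omega) h4

end Pool.Agent.Results.MP_aa954a_co.ExactValue
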